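import Mathlib

namespace Pool.Agent.H.MP_66e6f4_an

open Filter Topology Set MeasureTheory Real

abbrev E := ℂ

noncomputable def trL : (E →L[ℝ] E →L[ℝ] ℝ) →L[ℝ] ℝ :=
  ContinuousLinearMap.apply ℝ ℝ (1 : E) ∘L ContinuousLinearMap.apply ℝ (E →L[ℝ] ℝ) (1 : E) +
    ContinuousLinearMap.apply ℝ ℝ Complex.I ∘L ContinuousLinearMap.apply ℝ (E →L[ℝ] ℝ) Complex.I

lemma trL_apply (A : E →L[ℝ] E →L[ℝ] ℝ) : trL A = A 1 1 + A Complex.I Complex.I := by
  simp [trL]

noncomputable def gg (s : ℝ) : ℝ := smoothTransition (s - 1) / s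

lemma gg_zero {s : ℝ} (h : s ≤ 1) : gg s = 0 := by
  rw [gg, smoothTransition.zero_of_nonpos (sub_nonpos.2 h), zero_div]

lemma gg_cd : ContDiff ℝ 1 gg := by
  refine contDiff_iff_contDiffAt.2 fun s => ?_
  by_cases h : s < 1
  · refine (contDiffAt_const (c := 0)).congr_of_eventuallyEq ?_
    filter_upwards [Iio_mem_nhds h] with t ht using gg_zero (le_of_lt ht)
  · have : 0 < s := by linarith
    exact (smoothTransition.contDiffAt.comp s (contDiffAt_id.sub contDiffAt_const)).div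
      contDiffAt_id this.ne'

lemma gg_id {s : ℝ} (hs : 0 < s) :
    4 * s * deriv gg s + 4 * gg s = 4 * deriv smoothTransition (s - 1) := by
  have h1 : HasDerivAt (fun s => smoothTransition (s - 1)) (deriv smoothTransition (s - 1)) s :=
    ((smoothTransition.contDiff (n := 1)).differentiable one_ne_zero _).hasDerivAt.comp_sub_const
      s 1
  have := (h1.fun_div (hasDerivAt_id' s) hs.ne').deriv
  rw [show deriv gg s = _ from this, gg]
  field_simp
  ring

lemma gg_nonneg (s : ℝ) : 0 ≤ gg s := by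
  rcases le_total s 1 with h | h
  · rw [gg_zero h]
  · exact div_nonneg (smoothTransition.nonneg _) (by linarith)

lemma gg_le {s : ℝ} (h : 1 ≤ s) : gg s ≤ 1 / s :=
  div_le_div_of_nonneg_right (smoothTransition.le_one _) (by linarith)

lemma gg_le_one (s : ℝ) : gg s ≤ 1 := by
  rcases le_total s 1 with h | h
  · rw [gg_zero h]; norm_num
  · exact (gg_le h).trans (div_le_one_of_le₀ h (by linarith))

lemma gg_eq {s : ℝ} (h : 2 ≤ s) : gg s = 1 / s := by
  rw [gg, smoothTransition.one_of_one_le (by linarith)]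

noncomputable def psi (s : ℝ) : ℝ := log 2 + ∫ t in (2 : ℝ)..s, gg t

lemma psi_d (s : ℝ) : HasDerivAt psi (gg s) s :=
  (gg_cd.continuous.integral_hasStrictDerivAt 2 s).hasDerivAt.const_add _

lemma psi_eq {s : ℝ} (hs : 2 ≤ s) : psi s = log s := by
  have : ∫ t in (2 : ℝ)..s, gg t = log s - log 2 := by
    refine intervalIntegral.integral_eq_sub_of_hasDerivAt (f := log) (fun t ht => ?_)
      (gg_cd.continuous.intervalIntegrable _ _)
    rw [uIcc_of_le hs] at ht
    rw [gg_eq ht.1, one_div]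
    exact hasDerivAt_log (by linarith [ht.1])
  rw [psi, this]
  ring

lemma psi_le {s : ℝ} (h0 : 0 ≤ s) (hs : s ≤ 2) : |psi s| ≤ 3 := by
  have := intervalIntegral.norm_integral_le_of_norm_le_const (a := 2) (b := s) (C := 1) (f := gg)
    fun t _ => by rw [norm_of_nonneg (gg_nonneg t)]; exact gg_le_one t
  rw [norm_eq_abs, one_mul, abs_sub_comm, abs_of_nonneg (by linarith : 0 ≤ 2 - s), abs_le] at this
  rw [psi, abs_le]
  constructor <;> linarith [log_two_gt_d9, log_two_lt_d9]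

noncomputable def kk (y : E) : ℝ := psi (‖y‖ ^ 2)

lemma kk_cd : ContDiff ℝ 2 kk := by
  refine ContDiff.comp ?_ (contDiff_norm_sq ℝ)
  rw [show (2 : WithTop ℕ∞) = 1 + 1 from rfl, contDiff_succ_iff_deriv]
  refine ⟨fun s => (psi_d s).differentiableAt, by simp, ?_⟩
  rw [show deriv psi = fun s => gg s from funext fun s => (psi_d s).deriv]
  exact gg_cd

lemma kk_d : fderiv ℝ kk = fun y => (2 * gg (‖y‖ ^ 2)) • innerSL ℝ y := by
  funext y
  rw [show fderiv ℝ kk y = _ from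
    ((psi_d _).comp_hasFDerivAt y (hasStrictFDerivAt_norm_sq y).hasFDerivAt).fderiv]
  ext v <;> simp <;> ring

lemma kk_d_le (y : E) : ‖fderiv ℝ kk y‖ ≤ 2 := by
  rw [kk_d, norm_smul, innerSL_apply_norm, norm_of_nonneg (mul_nonneg zero_le_two (gg_nonneg _))]
  rcases le_total ‖y‖ 1 with h | h
  · nlinarith [gg_le_one (‖y‖ ^ 2), gg_nonneg (‖y‖ ^ 2), norm_nonneg y]
  · have := gg_le (s := ‖y‖ ^ 2) (by nlinarith)
    rw [le_div_iff₀ (by positivity)] at this
    nlinarith [gg_nonneg (‖y‖ ^ 2), mul_nonneg (gg_nonneg (‖y‖ ^ 2)) (norm_nonneg y)]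

noncomputable def eta (y : E) : ℝ := trL (fderiv ℝ (fderiv ℝ kk) y)

lemma eta_eq (y : E) : eta y = 4 * ‖y‖ ^ 2 * deriv gg (‖y‖ ^ 2) + 4 * gg (‖y‖ ^ 2) := by
  have h1 := (((gg_cd.differentiable one_ne_zero _).hasDerivAt.comp_hasFDerivAt y
    (hasStrictFDerivAt_norm_sq y).hasFDerivAt).const_mul 2).fun_smul
      (innerSL ℝ (E := E)).hasFDerivAt
  rw [eta, kk_d, show fderiv ℝ (fun y : E => (2 * gg (‖y‖ ^ 2)) • innerSL ℝ y) y = _ from
    h1.fderiv, trL_apply]
  have e : ∀ z w : ℂ, innerSL ℝ z w = z.re * w.re + z.im * w.im := fun z w => by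
    rw [innerSL_apply_apply, Complex.inner]; simp; ring
  simp only [ContinuousLinearMap.add_apply, ContinuousLinearMap.smul_apply,
    ContinuousLinearMap.smulRight_apply, e]
  simp [Complex.sq_norm, Complex.normSq_apply]
  ring

lemma eta_cont : Continuous eta :=
  trL.continuous.comp ((kk_cd.fderiv_right (m := 1) le_rfl).continuous_fderiv one_ne_zero)

lemma eta_eq' (y : E) : eta y = 4 * deriv smoothTransition (‖y‖ ^ 2 - 1) := by
  rw [eta_eq]
  rcases (sq_nonneg ‖y‖).eq_or_lt with h | h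
  · have : deriv smoothTransition (0 - 1) = deriv (fun _ => (0 : ℝ)) (0 - 1 : ℝ) := by
      refine EventuallyEq.deriv_eq ?_
      filter_upwards [Iio_mem_nhds (show (0 : ℝ) - 1 < 0 by norm_num)] with t ht
      exact smoothTransition.zero_of_nonpos (le_of_lt ht)
    rw [← h, this]
    simp [gg]
  · exact gg_id h

lemma eta_cd : ContDiff ℝ 1 eta := by
  rw [funext eta_eq']
  exact contDiff_const.mul (((smoothTransition.contDiff (n := 2)).deriv' (n := 1)).comp
    ((contDiff_norm_sq ℝ).sub contDiff_const))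

lemma eta_zero {y : E} (h : 3 ≤ ‖y‖) : eta y = 0 := by
  have : 9 ≤ ‖y‖ ^ 2 := by nlinarith
  rw [eta_eq']
  have : deriv smoothTransition (‖y‖ ^ 2 - 1) = deriv (fun _ => (1 : ℝ)) (‖y‖ ^ 2 - 1) := by
    refine EventuallyEq.deriv_eq ?_
    filter_upwards [Ioi_mem_nhds (show 1 < ‖y‖ ^ 2 - 1 by linarith)] with t ht
    exact smoothTransition.one_of_one_le (le_of_lt ht)
  simp [this]

lemma cs_of {G : Type*} [Zero G] {g : E → G} (h : ∀ y, 3 ≤ ‖y‖ → g y = 0) :
    HasCompactSupport g :=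
  HasCompactSupport.intro (isCompact_closedBall 0 3) fun y hy =>
    h y (not_le.1 (mt mem_closedBall_zero_iff.2 hy)).le

lemma eta_nonneg (y : E) : 0 ≤ eta y := by
  rw [eta_eq']
  exact mul_nonneg (by norm_num) smoothTransition.monotone.deriv_nonneg

lemma eta_int : 0 < ∫ y, eta y := by
  obtain ⟨c, c1, c2⟩ := exists_deriv_eq_slope smoothTransition zero_lt_one
    smoothTransition.continuous.continuousOn
    ((smoothTransition.contDiff (n := 1)).differentiable one_ne_zero).differentiableOn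
  refine eta_cont.integral_pos_of_hasCompactSupport_nonneg_nonzero (μ := volume)
    (cs_of fun y h => eta_zero h) eta_nonneg (x := (√(c + 1) : ℝ)) ?_
  have p : 0 < c + 1 := by linarith [c1.1]
  rw [eta_eq', Complex.norm_real, norm_of_nonneg (sqrt_nonneg _), sq_sqrt p.le,
    add_sub_cancel_right, c2]
  simp

lemma kk_hom {y : E} (h : 3 ≤ ‖y‖) : kk y - kk ((2 : ℝ)⁻¹ • y) - log 4 = 0 := by
  have e : ‖(2 : ℝ)⁻¹ • y‖ = 2⁻¹ * ‖y‖ := by rw [norm_smul]; simp
  have : 0 < ‖y‖ := by linarith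
  rw [kk, kk, psi_eq (by nlinarith), psi_eq (by rw [e]; nlinarith), e,
    show (2⁻¹ * ‖y‖) ^ 2 = ‖y‖ ^ 2 / 4 by ring, log_div (by positivity) (by norm_num)]
  ring

noncomputable def mj (y : E) : ℝ :=
  gg (‖y‖ ^ 2) * ((1 + |kk y|) * (1 + (2 + |kk y|) ^ 2)) * (1 + (y.re - 9) ^ 2)⁻¹

lemma mj_cont : Continuous mj := by
  have := gg_cd.continuous
  have := kk_cd.continuous
  unfold mj
  refine Continuous.mul (by fun_prop) (Continuous.inv₀ (by fun_prop) fun _ => by positivity)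

lemma mj_nonneg (y : E) : 0 ≤ mj y := by
  have := gg_nonneg (‖y‖ ^ 2)
  unfold mj
  positivity

lemma mj_le (y : E) : (1 + √‖y‖) * mj y ≤
    8 * 30 ^ 3 * ((1 + (y.re - 9) ^ 2)⁻¹ * (1 + ‖y.im‖) ^ (-(5 / 4) : ℝ)) := by
  rcases le_total ‖y‖ 1 with h | h
  · rw [mj, gg_zero (by nlinarith [norm_nonneg y])]
    simp only [zero_mul, mul_zero]
    positivity
  obtain ⟨p, hp⟩ : ∃ p, p = ‖y‖ ^ (1 / 12 : ℝ) := ⟨_, rfl⟩
  have p1 : 1 ≤ p := hp ▸ one_le_rpow h (by norm_num)
  have p2 : ‖y‖ = p ^ 12 := by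
    rw [hp, ← rpow_natCast, ← rpow_mul (norm_nonneg _)]; norm_num
  have k : |kk y| + 3 ≤ 30 * p := by
    rcases le_total (‖y‖ ^ 2) 2 with a | a
    · have := psi_le (sq_nonneg ‖y‖) a
      rw [kk]
      linarith
    · rw [kk, psi_eq a, abs_of_nonneg (log_nonneg (by linarith)), p2, ← pow_mul, log_pow]
      have := log_le_sub_one_of_pos (by linarith : 0 < p)
      push_cast
      linarith
  have s : √‖y‖ = p ^ 6 := by rw [p2, sqrt_eq_iff_mul_self_eq (by positivity) (by positivity)]; ring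
  have g : gg (‖y‖ ^ 2) ≤ 1 / p ^ 24 := (gg_le (by nlinarith)).trans_eq (by rw [p2]; ring)
  have i : 1 / p ^ 15 ≤ 4 * (1 + ‖y.im‖) ^ (-(5 / 4) : ℝ) := by
    have a : 1 + ‖y.im‖ ≤ 2 * p ^ 12 := by
      have := Complex.abs_im_le_norm y
      rw [norm_eq_abs]
      linarith
    have b := rpow_le_rpow_of_nonpos (by positivity) a (by norm_num : -(5 / 4 : ℝ) ≤ 0)
    have c : (1 / 4 : ℝ) ≤ 2 ^ (-(5 / 4) : ℝ) := by
      refine le_trans (le_of_eq ?_) (rpow_le_rpow_of_exponent_le one_le_two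
        (by norm_num : (-2 : ℝ) ≤ -(5 / 4)))
      rw [rpow_neg zero_le_two, rpow_two]; norm_num
    rw [mul_rpow zero_le_two (by positivity), ← rpow_natCast p, ← rpow_mul (by positivity),
      show ((12 : ℕ) : ℝ) * -(5 / 4) = -((15 : ℕ) : ℝ) by norm_num, rpow_neg (by positivity) ((15 : ℕ) : ℝ),
      rpow_natCast] at b
    rw [one_div]
    nlinarith [mul_le_mul_of_nonneg_right c (show 0 ≤ (p ^ 15)⁻¹ by positivity)]
  have q : (1 + |kk y|) * (1 + (2 + |kk y|) ^ 2) ≤ (30 * p) ^ 3 := by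
    refine le_trans ?_ (pow_le_pow_left₀ (by positivity) k 3)
    nlinarith [abs_nonneg (kk y), sq_nonneg |kk y|]
  have r : 1 + p ^ 6 ≤ 2 * p ^ 6 := by linarith [one_le_pow₀ (n := 6) p1]
  have g0 := gg_nonneg (‖y‖ ^ 2)
  rw [mj, s]
  calc _ ≤ (2 * p ^ 6) * (1 / p ^ 24 * (30 * p) ^ 3 * (1 + (y.re - 9) ^ 2)⁻¹) := by gcongr
    _ = 2 * 30 ^ 3 * ((1 + (y.re - 9) ^ 2)⁻¹ * (1 / p ^ 15)) := by field_simp
    _ ≤ 2 * 30 ^ 3 * ((1 + (y.re - 9) ^ 2)⁻¹ * (4 * (1 + ‖y.im‖) ^ (-(5 / 4) : ℝ))) := by gcongr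
    _ = _ := by ring

noncomputable def ph (y : E) : ℝ := mj y + eta y

lemma ph_cont : Continuous ph := mj_cont.add eta_cont

lemma ph_nonneg (y : E) : 0 ≤ ph y := add_nonneg (mj_nonneg y) (eta_nonneg y)

lemma ph_int : Integrable fun y => (1 + √‖y‖) * ph y := by
  have a : Integrable fun y : E => (1 + √‖y‖) * mj y := by
    have i := ((integrable_inv_one_add_sq.comp_sub_right 9).mul_prod
      (integrable_one_add_norm (E := ℝ) (μ := volume) (r := 5 / 4) (by norm_num))).const_mul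
      (8 * 30 ^ 3)
    have j := (Complex.volume_preserving_equiv_real_prod.integrable_comp_emb
      Complex.measurableEquivRealProd.measurableEmbedding).2 i
    refine j.mono' (Continuous.aestronglyMeasurable (by have := mj_cont; fun_prop))
      (Eventually.of_forall fun y => ?_)
    rw [norm_of_nonneg (mul_nonneg (by positivity) (mj_nonneg y))]
    exact mj_le y
  have b : Integrable fun y : E => (1 + √‖y‖) * eta y :=
    Continuous.integrable_of_hasCompactSupport (by have := eta_cont; fun_prop)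
      (cs_of fun y h => by rw [eta_zero h, mul_zero])
  exact (a.add b).congr (Eventually.of_forall fun y => by simp [ph, mul_add])

lemma ph_bd : ∃ K, 0 < K ∧ ∀ y, ph y ≤ K := by
  obtain ⟨M, hM⟩ := (cs_of fun _ => eta_zero).exists_bound_of_continuous eta_cont
  have := (norm_nonneg _).trans (hM 0)
  refine ⟨8 * 30 ^ 3 + M, by positivity, fun y => add_le_add ?_ ((le_abs_self _).trans (hM y))⟩
  refine le_trans (le_mul_of_one_le_left (mj_nonneg y) (by linarith [sqrt_nonneg ‖y‖]))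
    ((mj_le y).trans (mul_le_of_le_one_right (by norm_num) (mul_le_one₀
      (inv_le_one_of_one_le₀ (by nlinarith [sq_nonneg (y.re - 9)])) (by positivity)
      (rpow_le_one_of_one_le_of_nonpos (by linarith [norm_nonneg y.im]) (by norm_num)))))

end Pool.Agent.H.MP_66e6f4_an
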