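import Pool.Agent.H.MP_66e6f4_an.B

namespace Pool.Agent.H.MP_66e6f4_an

open Filter Topology Set MeasureTheory Real

lemma ka_c0 : ContDiff ℝ 1 ka := ka_cd.of_le one_le_two

lemma ka_c1 : ContDiff ℝ 1 (fderiv ℝ ka) := ka_cd.fderiv_right (m := 1) le_rfl

lemma ka_z1 : ∀ y, 3 ≤ ‖y‖ → fderiv ℝ ka y = 0 := fd0 ka_c0 ka0

lemma ka_z2 : ∀ y, 3 ≤ ‖y‖ → fderiv ℝ (fderiv ℝ ka) y = 0 := fd0 ka_c1 ka_z1

lemma sm : Summable fun j : ℤ => (8 / 9 : ℝ) ^ j.natAbs :=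
  .of_nat_of_neg (by simp; norm_num) (by simp; norm_num)

lemma bd0 : ∃ C, 0 ≤ C ∧ ∀ ε ρ x, Adm ε ρ → ∀ j, ‖tm 0 ka ρ j x‖ ≤ ε * C * (8 / 9) ^ j.natAbs := by
  obtain ⟨C, p, b⟩ := tm_bd ka_c0.continuous ka0 (k := 0) (.inr ka_c0) zero_le_two
  obtain ⟨K, k0, hK⟩ := ph_bd
  refine ⟨(K + 1) * C, by positivity, fun ε ρ x h j => ?_⟩
  have e0 := h.2.2.2
  rw [← mul_assoc]
  refine b ε _ 0 ρ x h (by nlinarith) (zero_smul _ _) (fun r r0 r1 z _ => ?_) j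
  have := (h.2.1 (x - r • z)).trans (mul_le_mul_of_nonneg_left ((hK _).trans
    (le_add_of_nonneg_right zero_le_one)) e0)
  rw [sub_zero, mul_comm]
  exact mul_le_mul this (pow_le_of_le_one r0.le r1 two_ne_zero) (by positivity)
    ((abs_nonneg _).trans this)

lemma bd1 : ∃ C, 0 ≤ C ∧ ∀ ε ρ x, Adm ε ρ → ∀ j,
    ‖tm 1 (fderiv ℝ ka) ρ j x‖ ≤ ε * C * (8 / 9) ^ j.natAbs := by
  obtain ⟨C, p, b⟩ := tm_bd ka_c1.continuous ka_z1 (k := 1) (.inl one_ne_zero) one_le_two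
  obtain ⟨K, k0, hK⟩ := ph_bd
  refine ⟨(K + 1) * C, by positivity, fun ε ρ x h j => ?_⟩
  have e0 := h.2.2.2
  rw [← mul_assoc]
  refine b ε _ 0 ρ x h (by nlinarith) (zero_smul _ _) (fun r r0 r1 z _ => ?_) j
  have := (h.2.1 (x - r • z)).trans (mul_le_mul_of_nonneg_left ((hK _).trans
    (le_add_of_nonneg_right zero_le_one)) e0)
  rw [sub_zero, mul_comm, pow_one]
  exact mul_le_mul_of_nonneg_right this r0.le

lemma loc {ε : ℝ} (e0 : 0 ≤ ε) {ρ : E → ℝ} (hρ : ContDiff ℝ 1 ρ) (x0 : E) :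
    ∃ B, ε ≤ B ∧ ∀ x ∈ Metric.ball x0 1, ∀ r : ℝ, 0 < r → r ≤ 1 → ∀ z : E,
      ‖z‖ < 3 → |ρ (x - r • z) - ρ x| ≤ B * r := by
  obtain ⟨K, hK⟩ := hρ.contDiffOn.exists_lipschitzOnWith one_ne_zero (convex_closedBall x0 4)
    (isCompact_closedBall x0 4)
  refine ⟨ε + K * 3, le_add_of_nonneg_right (by positivity), fun x hx r r0 r1 z hz => ?_⟩
  have a : ‖x - r • z - x‖ ≤ 3 * r := by
    rw [sub_sub_cancel_left, norm_neg, norm_smul, norm_of_nonneg r0.le]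
    nlinarith
  rw [Metric.mem_ball] at hx
  have := hK.norm_sub_le (x := x - r • z) (y := x) (by
    have := dist_triangle (x - r • z) x x0
    rw [dist_eq_norm (x - r • z) x] at this
    rw [Metric.mem_closedBall]
    linarith) (by rw [Metric.mem_closedBall]; linarith)
  refine this.trans ?_
  have := mul_le_mul_of_nonneg_left a K.coe_nonneg
  nlinarith [mul_nonneg e0 r0.le]

lemma bd2 {ε : ℝ} {ρ : E → ℝ} (h : Adm ε ρ) (hρ : ContDiff ℝ 1 ρ) (x0 : E) :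
    ∃ B, ∀ j, ∀ x ∈ Metric.ball x0 1,
      ‖tm 2 (fderiv ℝ (fderiv ℝ ka)) ρ j x‖ ≤ B * (8 / 9) ^ j.natAbs := by
  obtain ⟨C, -, b⟩ := tm_bd (ka_c1.continuous_fderiv one_ne_zero) ka_z2 (k := 2)
    (.inl two_ne_zero) le_rfl
  obtain ⟨B, hB, hL⟩ := loc h.2.2.2 hρ x0
  exact ⟨B * C, fun j x hx => b ε B (ρ x) ρ x h hB
    (by rw [int_fd ka_c1 (cs_of ka_z1), smul_zero]) (fun r r0 r1 z hz => by
      simpa using hL x hx r r0 r1 z hz) j⟩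

lemma tm_d {G : Type*} [NormedAddCommGroup G] [NormedSpace ℝ G] {g : E → G} (hg : ContDiff ℝ 1 g)
    (h0 : ∀ y, 3 ≤ ‖y‖ → g y = 0) {ρ : E → ℝ} (hρ : Continuous ρ) (k : ℕ) (j : ℤ) (x : E) :
    HasFDerivAt (tm k g ρ j) (tm (k + 1) (fderiv ℝ g) ρ j x) x := by
  rw [tm, tm, ← sc_d hg]
  exact cv_d (sc_cd hg _ _) (sc_cs (cs_of h0) _ (by positivity)) hρ x

lemma tm_c {G : Type*} [NormedAddCommGroup G] [NormedSpace ℝ G] {g : E → G} (hg : Continuous g)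
    (h0 : ∀ y, 3 ≤ ‖y‖ → g y = 0) {ρ : E → ℝ} (hρ : Continuous ρ) (k : ℕ) (j : ℤ) :
    Continuous (tm k g ρ j) :=
  cv_cont (by unfold sc; fun_prop) (sc_cs (cs_of h0) _ (by positivity)) hρ

noncomputable def NN (ρ : E → ℝ) (x : E) : ℝ := ∑' j, tm 0 ka ρ j x

variable {ε : ℝ} {ρ : E → ℝ}

lemma sm0 (h : Adm ε ρ) (x : E) : Summable fun j => tm 0 ka ρ j x := by
  obtain ⟨C, -, b⟩ := bd0
  exact .of_norm_bounded (sm.mul_left _) (b ε ρ x h)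

lemma dd1 (h : Adm ε ρ) (x : E) : HasFDerivAt (NN ρ) (∑' j, tm 1 (fderiv ℝ ka) ρ j x) x := by
  obtain ⟨C, -, b⟩ := bd1
  exact hasFDerivAt_tsum (sm.mul_left _) (tm_d ka_c0 ka0 h.1 0) (fun j x => b ε ρ x h j)
    (sm0 h 0) x

lemma ee1 (h : Adm ε ρ) : fderiv ℝ (NN ρ) = fun x => ∑' j, tm 1 (fderiv ℝ ka) ρ j x :=
  funext fun x => (dd1 h x).fderiv

lemma NN_sub (h : Adm ε ρ) {ε' : ℝ} {ρ' : E → ℝ} (h' : Adm ε' ρ') (x : E) :
    NN (ρ - ρ') x = NN ρ x - NN ρ' x := by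
  rw [NN, NN, NN, ← (sm0 h x).tsum_sub (sm0 h' x)]
  refine tsum_congr fun j => ?_
  have q := fun ρ (h : Continuous ρ) => cv_int (sc_cd ka_c0 0 (2 ^ j)).continuous
    (sc_cs (cs_of ka0) _ (by positivity)) h x
  rw [tm, tm, tm, cv, cv, cv, ← integral_sub (q _ h.1) (q _ h'.1)]
  simp only [Pi.sub_apply, sub_smul]

lemma NN_c1 (h : Adm ε ρ) : ContDiff ℝ 1 (NN ρ) := by
  obtain ⟨C, -, b⟩ := bd1
  rw [contDiff_one_iff_fderiv, ee1 h]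
  exact ⟨fun x => (dd1 h x).differentiableAt, continuous_tsum
    (tm_c ka_c1.continuous ka_z1 h.1 1) (sm.mul_left _) fun j x => b ε ρ x h j⟩

lemma NN_bd : ∃ C, 0 < C ∧ ∀ ε ρ x, Adm ε ρ →
    |NN ρ x| ≤ ε * C ∧ ‖fderiv ℝ (NN ρ) x‖ ≤ ε * C := by
  obtain ⟨C0, p0, b0⟩ := bd0
  obtain ⟨C1, p1, b1⟩ := bd1
  have S0 : 0 ≤ ∑' j : ℤ, (8 / 9 : ℝ) ^ j.natAbs := tsum_nonneg fun _ => by positivity
  refine ⟨(C0 + C1) * (∑' j : ℤ, (8 / 9 : ℝ) ^ j.natAbs) + 1, by positivity, fun ε ρ x h => ?_⟩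
  have e0 : 0 ≤ ε := h.2.2.2
  constructor
  · refine (tsum_of_norm_bounded (sm.hasSum.mul_left _) (b0 ε ρ x h)).trans ?_
    rw [mul_assoc]
    exact mul_le_mul_of_nonneg_left (by nlinarith [mul_nonneg p1 S0]) e0
  · rw [ee1 h]
    refine (tsum_of_norm_bounded (sm.hasSum.mul_left _) (b1 ε ρ x h)).trans ?_
    rw [mul_assoc]
    exact mul_le_mul_of_nonneg_left (by nlinarith [mul_nonneg p0 S0]) e0

lemma dd2 (h : Adm ε ρ) (hρ : ContDiff ℝ 1 ρ) (x : E) :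
    HasFDerivAt (fun x => ∑' j, tm 1 (fderiv ℝ ka) ρ j x)
      (∑' j, tm 2 (fderiv ℝ (fderiv ℝ ka)) ρ j x) x := by
  obtain ⟨B, hB⟩ := bd2 h hρ x
  obtain ⟨C, -, b⟩ := bd1
  exact hasFDerivAt_tsum_of_isPreconnected (sm.mul_left _) Metric.isOpen_ball
    (convex_ball x 1).isPreconnected (fun j x _ => tm_d ka_c1 ka_z1 h.1 1 j x) hB
    (Metric.mem_ball_self one_pos) (.of_norm_bounded (sm.mul_left _) (b ε ρ x h))
    (Metric.mem_ball_self one_pos)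

lemma NN_c2 (h : Adm ε ρ) (hρ : ContDiff ℝ 1 ρ) : ContDiff ℝ 2 (NN ρ) := by
  rw [show (2 : WithTop ℕ∞) = 1 + 1 from rfl, contDiff_succ_iff_fderiv, ee1 h,
    contDiff_one_iff_fderiv]
  refine ⟨fun x => (dd1 h x).differentiableAt, by simp, fun x => (dd2 h hρ x).differentiableAt, ?_⟩
  rw [funext fun x => (dd2 h hρ x).fderiv]
  refine continuous_iff_continuousAt.2 fun x => ?_
  obtain ⟨B, hB⟩ := bd2 h hρ x
  exact (continuousOn_tsum (fun j => (tm_c (ka_c1.continuous_fderiv one_ne_zero) ka_z2 h.1 2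
    j).continuousOn) (sm.mul_left _) hB).continuousAt (Metric.ball_mem_nhds x one_pos)

lemma lim1 (h : Adm ε ρ) (x : E) : Tendsto (fun n : ℕ => tm 2 eta ρ n x) atTop (𝓝 0) := by
  obtain ⟨M, -, hM⟩ := large eta_cont (fun _ => eta_zero) (k := 2) (.inl two_ne_zero)
  have := (tendsto_pow_atTop_nhds_zero_of_lt_one (r := (8 / 9 : ℝ)) (by norm_num)
    (by norm_num)).const_mul (ε * M)
  rw [mul_zero] at this
  refine squeeze_zero_norm (fun n => ?_) this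
  rw [tm, zpow_natCast]
  exact hM ε ρ n x h

lemma lim2 (hρ : ContDiff ℝ 1 ρ) (x : E) :
    Tendsto (fun n : ℕ => tm 2 eta ρ (-n) x) atTop (𝓝 (ρ x * ∫ z, eta z)) := by
  obtain ⟨B, -, hL⟩ := loc le_rfl hρ x
  have := (tendsto_pow_atTop_nhds_zero_of_lt_one (r := (2⁻¹ : ℝ)) (by norm_num)
    (by norm_num)).const_mul (B * ∫ z, ‖eta z‖)
  rw [mul_zero] at this
  refine tendsto_sub_nhds_zero_iff.1 (squeeze_zero_norm (fun n => ?_) this)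
  have r0 : (0 : ℝ) < 2⁻¹ ^ n := by positivity
  rw [tm, zpow_neg, zpow_natCast, ← inv_pow, cv_sc _ _ _ r0, ← mul_pow, inv_mul_cancel₀ r0.ne',
    one_pow, one_smul, mul_right_comm]
  exact small eta_cont (fun _ => eta_zero) (by have := hρ.continuous; fun_prop) fun z hz =>
    hL x (Metric.mem_ball_self one_pos) _ r0 (pow_le_one₀ (by norm_num) (by norm_num)) z hz

lemma smm {F G : Type*} [NormedAddCommGroup F] [NormedSpace ℝ F] [NormedAddCommGroup G]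
    [NormedSpace ℝ G] [CompleteSpace G] {a : ℤ → F →L[ℝ] G} {u : ℤ → ℝ}
    (hu : Summable u) (h : ∀ j, ‖a j‖ ≤ u j) : Summable a :=
  Summable.of_norm_bounded hu h

lemma NN_lap (h : Adm ε ρ) (hρ : ContDiff ℝ 1 ρ) (x : E) :
    trL (fderiv ℝ (fderiv ℝ (NN ρ)) x) = ρ x * ∫ z, eta z := by
  obtain ⟨B, hB⟩ := bd2 h hρ x
  have s2 : Summable fun j => tm 2 (fderiv ℝ (fderiv ℝ ka)) ρ j x :=
    smm (sm.mul_left _) fun j => hB j x (Metric.mem_ball_self one_pos)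
  have s3 := s2.hasSum.mapL trL
  simp only [tm_tr h.1] at s3
  rw [ee1 h, (dd2 h hρ x).fderiv, ← s3.tsum_eq]
  exact tele (a := fun j => tm 2 eta ρ j x) s3.summable (lim1 h x) (lim2 hρ x)

end Pool.Agent.H.MP_66e6f4_an
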