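import Pool.Agent.H.MP_66e6f4_an.C

namespace Pool.Agent.H.MP_66e6f4_an

open Filter Topology Set MeasureTheory Real BoundedContinuousFunction
open scoped ContDiff

noncomputable def pr (σ : E → ℝ) (y : E) : ℝ := σ y - (∫ z, σ z) / (∫ z, eta z) * eta y

lemma mj_ph (y : E) : mj y ≤ ph y := le_add_of_nonneg_right (eta_nonneg y)

lemma eta_int' : Integrable eta :=
  eta_cont.integrable_of_hasCompactSupport (cs_of fun _ => eta_zero)

lemma int_mj {δ : ℝ} {σ : E → ℝ} (hc : Continuous σ) (h : ∀ y, |σ y| ≤ δ * mj y) (d0 : 0 ≤ δ) :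
    Integrable σ :=
  int_of hc fun y => (h y).trans (mul_le_mul_of_nonneg_left (mj_ph y) d0)

lemma pr_bd : ∃ A, 0 < A ∧ ∀ (δ : ℝ) (σ : E → ℝ), 0 ≤ δ → Continuous σ →
    (∀ y, |σ y| ≤ δ * mj y) → Adm (δ * A) (pr σ) ∧ |∫ z, σ z| ≤ δ * A := by
  have I0 := eta_int
  have J0 : 0 ≤ ∫ z, ph z := integral_nonneg ph_nonneg
  refine ⟨1 + (∫ z, ph z) + (∫ z, ph z) / ∫ z, eta z, by positivity, fun δ σ d0 hc h => ?_⟩
  have m : |∫ z, σ z| ≤ δ * ∫ z, ph z := by
    rw [← integral_const_mul]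
    exact norm_integral_le_of_norm_le (f := σ) (ph_int'.const_mul δ) (Eventually.of_forall fun y =>
      (h y).trans (mul_le_mul_of_nonneg_left (mj_ph y) d0))
  have q : 0 ≤ (∫ z, ph z) / ∫ z, eta z := by positivity
  refine ⟨⟨?_, fun y => ?_, ?_, by positivity⟩, m.trans ?_⟩
  · have := eta_cont
    unfold pr
    fun_prop
  · have a : |(∫ z, σ z) / (∫ z, eta z) * eta y| ≤ δ * ((∫ z, ph z) / ∫ z, eta z) * eta y := by
      rw [abs_mul, abs_of_nonneg (eta_nonneg y), abs_div, abs_of_pos I0, ← mul_div_assoc]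
      have := eta_nonneg y
      gcongr
    refine (abs_sub _ _).trans ((add_le_add (h y) a).trans ?_)
    have := mj_nonneg y
    have := eta_nonneg y
    rw [ph, mul_assoc, mul_assoc, ← mul_add]
    refine mul_le_mul_of_nonneg_left ?_ d0
    nlinarith [mul_nonneg J0 (mj_nonneg y), mul_nonneg J0 (eta_nonneg y),
      mul_nonneg q (mj_nonneg y)]
  · unfold pr
    rw [integral_sub (int_mj hc h d0) (eta_int'.const_mul _), integral_const_mul,
      div_mul_cancel₀ _ I0.ne', sub_self]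
  · exact mul_le_mul_of_nonneg_left (by linarith) d0

lemma pr_sub {σ τ : E → ℝ} (hσ : Integrable σ) (hτ : Integrable τ) :
    pr (σ - τ) = pr σ - pr τ := by
  funext y
  simp only [pr, Pi.sub_apply, integral_sub hσ hτ]
  ring

def cl (s : ℝ) : ℝ := max (-1) (min 1 s)

lemma cl_le (s : ℝ) : |cl s| ≤ 1 :=
  abs_le.2 ⟨le_max_left _ _, max_le (by norm_num) (min_le_left _ _)⟩

lemma cl_lip (s t : ℝ) : |cl s - cl t| ≤ |s - t| := by
  simpa [Real.dist_eq, cl] using ((LipschitzWith.id.const_min 1).const_max (-1)).dist_le_mul s t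

lemma cl_eq {s : ℝ} (h : |s| ≤ 1) : cl s = s := by
  rw [cl, min_eq_right (abs_le.1 h).2, max_eq_right (abs_le.1 h).1]

lemma mj_ge {y : E} {a t : ℝ} (ha : |a| ≤ 1) (ht : |t| ≤ 1) (h : |y.re - 9 + a + t * kk y| < 1) :
    (1 + |kk y|) * gg (‖y‖ ^ 2) ≤ mj y := by
  have g := gg_nonneg (‖y‖ ^ 2)
  have b : |t * kk y| ≤ |kk y| := by
    rw [abs_mul]; exact mul_le_of_le_one_left (abs_nonneg _) ht
  have c : |y.re - 9| ≤ 2 + |kk y| := by
    rw [abs_le] at ha b ⊢
    rw [abs_lt] at h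
    constructor <;> linarith [ha.1, ha.2, b.1, b.2, h.1, h.2]
  have d := pow_le_pow_left₀ (abs_nonneg _) c 2
  rw [sq_abs] at d
  rw [mj, ← div_eq_mul_inv, le_div_iff₀ (by positivity), mul_comm (1 + |kk y|), mul_assoc]
  gcongr

theorem fixed : ∃ (f : ℝ → ℝ) (w : E → ℝ) (t : ℝ), ContDiff ℝ ∞ f ∧ HasCompactSupport f ∧
    (∀ s, 0 ≤ f s) ∧ 0 < f 0 ∧ (∀ s, 1 ≤ |s| → f s = 0) ∧ ContDiff ℝ 2 w ∧ (∀ x, |w x| ≤ 8⁻¹) ∧
      (∀ x, ‖fderiv ℝ w x‖ ≤ 8⁻¹) ∧ |t| ≤ 8⁻¹ ∧ ∀ y, trL (fderiv ℝ (fderiv ℝ w) y) + t * eta y =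
        f (y.re - 9 + w y + t * kk y) * gg (‖y‖ ^ 2) := by
  obtain ⟨C, C0, hC⟩ := NN_bd
  obtain ⟨A, A0, hA⟩ := pr_bd
  let b : ContDiffBump (0 : ℝ) := ⟨2⁻¹, 1, by norm_num, by norm_num⟩
  have bz : ∀ s, 1 ≤ |s| → b s = 0 := fun s hs =>
    b.zero_of_le_dist (by change 1 ≤ _; rwa [dist_zero_right])
  obtain ⟨L, hL⟩ := (b.contDiff (n := 1)).lipschitzWith_of_hasCompactSupport b.hasCompactSupport
    one_ne_zero
  have L0 := L.coe_nonneg
  obtain ⟨ε, e0, e1⟩ : ∃ ε : ℝ, 0 < ε ∧ ε * (L + 1) * A * (C + 1) = 8⁻¹ :=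
    ⟨(8 * (L + 1) * A * (C + 1))⁻¹, by positivity, by field_simp⟩
  have e3 : ε * L * A * C ≤ 8⁻¹ := by rw [← e1]; gcongr <;> linarith
  have e4 : ε * L * A ≤ 8⁻¹ := by
    rw [← e1]
    exact le_trans (by gcongr; linarith) (le_mul_of_one_le_right (by positivity) (by linarith))
  have e5 : ε * A * (C + 1) ≤ 8⁻¹ := by
    rw [← e1]; gcongr; exact le_mul_of_one_le_right e0.le (by linarith)
  have e6 : ε * A * C ≤ 8⁻¹ := le_trans (by gcongr; linarith) e5
  have e7 : ε * A ≤ 8⁻¹ := (le_mul_of_one_le_right (by positivity) (by linarith)).trans e5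
  let V : (E →ᵇ ℝ) × ℝ → E → ℝ := fun p y => y.re - 9 + cl (p.1 y) + cl p.2 * kk y
  let S : (E →ᵇ ℝ) × ℝ → E → ℝ := fun p y => ε * b (V p y) * gg (‖y‖ ^ 2)
  have Sc : ∀ p, Continuous (S p) := fun p => by
    have := kk_cd.continuous
    have := b.continuous
    have := gg_cd.continuous
    simp only [S, V, cl]
    fun_prop
  have Z : ∀ p y, b (V p y) ≠ 0 → (1 + |kk y|) * gg (‖y‖ ^ 2) ≤ mj y := fun p y h =>
    mj_ge (cl_le _) (cl_le _) (not_le.1 (mt (bz _) h))
  have Sb : ∀ p y, |S p y| ≤ ε * mj y := fun p y => by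
    have g := gg_nonneg (‖y‖ ^ 2)
    have b0 : 0 ≤ b (V p y) := b.nonneg
    by_cases h : b (V p y) = 0
    · simp only [S, h, mul_zero, zero_mul, abs_zero]
      exact mul_nonneg e0.le (mj_nonneg y)
    · rw [abs_of_nonneg (by positivity), show S p y = ε * (b (V p y) * gg (‖y‖ ^ 2)) from
        mul_assoc _ _ _]
      refine mul_le_mul_of_nonneg_left (le_trans ?_ (Z p y h)) e0.le
      exact mul_le_mul_of_nonneg_right (b.le_one.trans (by linarith [abs_nonneg (kk y)])) g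
  have Sd : ∀ p q y, |(S p - S q) y| ≤ ε * L * dist p q * mj y := fun p q y => by
    have g := gg_nonneg (‖y‖ ^ 2)
    have d0 := dist_nonneg (x := p) (y := q)
    by_cases h : b (V p y) = 0 ∧ b (V q y) = 0
    · simp only [S, h.1, h.2, mul_zero, zero_mul, Pi.sub_apply, sub_self, abs_zero]
      exact mul_nonneg (by positivity) (mj_nonneg y)
    have z : (1 + |kk y|) * gg (‖y‖ ^ 2) ≤ mj y := (not_and_or.1 h).elim (Z p y) (Z q y)
    have a := hL.norm_sub_le (V p y) (V q y)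
    have c1 : |cl (p.1 y) - cl (q.1 y)| ≤ dist p q :=
      (cl_lip _ _).trans ((dist_coe_le_dist (f := p.1) (g := q.1) y).trans (le_max_left _ _))
    have c2 : |cl p.2 - cl q.2| ≤ dist p q := (cl_lip _ _).trans (le_max_right _ _)
    have c : |V p y - V q y| ≤ dist p q * (1 + |kk y|) := by
      rw [show V p y - V q y = (cl (p.1 y) - cl (q.1 y)) + (cl p.2 - cl q.2) * kk y by
        simp only [V]; ring, mul_add, mul_one]
      refine (abs_add_le _ _).trans (add_le_add c1 ?_)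
      rw [abs_mul]
      exact mul_le_mul_of_nonneg_right c2 (abs_nonneg _)
    rw [show (S p - S q) y = ε * ((b (V p y) - b (V q y)) * gg (‖y‖ ^ 2)) by
      simp only [S, Pi.sub_apply]; ring, abs_mul, abs_of_pos e0, abs_mul, abs_of_nonneg g]
    calc _ ≤ ε * (L * (dist p q * (1 + |kk y|)) * gg (‖y‖ ^ 2)) := by
          gcongr
          exact a.trans (mul_le_mul_of_nonneg_left c L0)
      _ = ε * L * dist p q * ((1 + |kk y|) * gg (‖y‖ ^ 2)) := by ring
      _ ≤ _ := by gcongr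
  have P := fun p => hA ε (S p) e0.le (Sc p) (Sb p)
  let T : (E →ᵇ ℝ) × ℝ → (E →ᵇ ℝ) × ℝ := fun p => (ofNormedAddCommGroup (NN (pr (S p)))
    (NN_c1 (P p).1).continuous (ε * A * C) fun x => (hC _ _ x (P p).1).1, ∫ z, S p z)
  have K : ContractingWith 8⁻¹ T := by
    refine ⟨by norm_num, .of_dist_le_mul fun p q => ?_⟩
    have d0 := dist_nonneg (x := p) (y := q)
    have Q := hA _ (S p - S q) (by positivity) ((Sc p).sub (Sc q)) (Sd p q)
    have i := fun p => int_mj (Sc p) (Sb p) e0.le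
    refine max_le ((dist_le (by positivity)).2 fun x => ?_) ?_
    · have := (hC _ _ x Q.1).1
      rw [pr_sub (i p) (i q), NN_sub (P p).1 (P q).1] at this
      refine this.trans ?_
      simp only [NNReal.coe_inv, NNReal.coe_ofNat]
      nlinarith [mul_le_mul_of_nonneg_right e3 d0]
    · have := Q.2
      simp only [Pi.sub_apply, integral_sub (i p) (i q)] at this
      refine this.trans ?_
      simp only [NNReal.coe_inv, NNReal.coe_ofNat]
      nlinarith [mul_le_mul_of_nonneg_right e4 d0]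
  obtain ⟨⟨w, t⟩, hw⟩ : ∃ p, T p = p := ⟨_, K.fixedPoint_isFixedPt⟩
  have W : NN (pr (S (w, t))) = w := funext fun x => DFunLike.congr_fun (congrArg Prod.fst hw) x
  have ht : ∫ z, S (w, t) z = t := congrArg Prod.snd hw
  have w1 : ∀ x, |w x| ≤ 8⁻¹ := fun x => W ▸ (hC _ _ x (P (w, t)).1).1.trans e6
  have t1 : |t| ≤ 8⁻¹ := ht ▸ (P (w, t)).2.trans e7
  have r : S (w, t) = fun y => ε * b (y.re - 9 + w y + t * kk y) * gg (‖y‖ ^ 2) :=
    funext fun y => by
      simp only [S, V]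
      rw [cl_eq ((w1 y).trans (by norm_num)), cl_eq (t1.trans (by norm_num))]
  have w2 : ContDiff ℝ 1 w := W ▸ NN_c1 (P (w, t)).1
  have c : ContDiff ℝ 1 (pr (S (w, t))) := by
    unfold pr
    refine ContDiff.sub ?_ (contDiff_const.mul eta_cd)
    rw [r]
    exact (contDiff_const.mul (b.contDiff.comp (((Complex.reCLM.contDiff.sub contDiff_const).add
      w2).add (contDiff_const.mul (kk_cd.of_le one_le_two))))).mul
        (gg_cd.comp (contDiff_norm_sq ℝ))
  have I0 := eta_int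
  have p : 0 < ε * ∫ z, eta z := mul_pos e0 I0
  refine ⟨fun s => (ε * ∫ z, eta z) * b s, w, t, contDiff_const.mul b.contDiff,
    b.hasCompactSupport.mul_left, fun s => mul_nonneg p.le b.nonneg, ?_,
    fun s hs => by simp only [bz s hs, mul_zero], W ▸ NN_c2 (P (w, t)).1 c, w1,
    fun x => W ▸ (hC _ _ x (P (w, t)).1).2.trans e6, t1, fun y => ?_⟩
  · simp only [b.one_of_mem_closedBall (Metric.mem_closedBall_self b.rIn_pos.le), mul_one, p]
  · have := NN_lap (P (w, t)).1 c y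
    rw [W, pr, ht, r] at this
    rw [this]
    field_simp
    ring

theorem plane : ∃ (f : ℝ → ℝ) (v : E → ℝ), ContDiff ℝ ∞ f ∧ HasCompactSupport f ∧
    (∀ s, 0 ≤ f s) ∧ 0 < f 0 ∧ ContDiff ℝ 2 v ∧ (∀ y, fderiv ℝ v y 1 ≠ 0) ∧
      (∀ y, ‖y‖ ≤ 1 → |v y - (y.re - 9)| ≤ 2⁻¹) ∧ 0 < v (exp 3 : ℝ) ∧
      ∀ y, ‖y‖ ^ 2 * trL (fderiv ℝ (fderiv ℝ v) y) = f (v y) := by
  obtain ⟨f, w, t, f1, f2, f3, f4, f5, w2, w0, w1, t0, h⟩ := fixed
  have s : ∀ y : E, ‖y‖ ^ 2 ≤ 2 → |w y + t * kk y| ≤ 2⁻¹ := fun y hy => by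
    have a := psi_le (sq_nonneg ‖y‖) hy
    have b := mul_le_mul t0 a (abs_nonneg _) (by norm_num)
    rw [← abs_mul] at b
    refine (abs_add_le _ _).trans ((add_le_add (w0 y) b).trans (by norm_num))
  have wd := w2.differentiable two_ne_zero
  have kd := kk_cd.differentiable two_ne_zero
  have D : fderiv ℝ (fun y : E => y.re - 9 + w y + t * kk y) =
      fun y => Complex.reCLM + fderiv ℝ w y + t • fderiv ℝ kk y := funext fun y =>
    (((Complex.reCLM.hasFDerivAt.sub_const 9).fun_add (wd y).hasFDerivAt).fun_add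
      ((kd y).hasFDerivAt.const_mul t)).fderiv
  refine ⟨f, fun y => y.re - 9 + w y + t * kk y, f1, f2, f3, f4,
    ((Complex.reCLM.contDiff.sub contDiff_const).add w2).add (contDiff_const.mul kk_cd),
    fun y => ?_, fun y hy => ?_, ?_, fun y => ?_⟩
  · have a := ((fderiv ℝ w y).le_opNorm 1).trans_eq (by rw [norm_one, mul_one])
    have b := ((fderiv ℝ kk y).le_opNorm 1).trans_eq (by rw [norm_one, mul_one])
    have c := mul_le_mul t0 (b.trans (kk_d_le y)) (norm_nonneg _) (by norm_num)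
    have d := abs_le.1 (a.trans (w1 y))
    rw [norm_eq_abs, ← abs_mul, abs_le] at c
    simp only [D, ContinuousLinearMap.add_apply, ContinuousLinearMap.smul_apply,
      Complex.reCLM_apply, Complex.one_re, smul_eq_mul]
    linarith [c.1, d.1]
  · have := s y (by nlinarith [norm_nonneg y])
    rwa [show y.re - 9 + w y + t * kk y - (y.re - 9) = w y + t * kk y by ring]
  · have e : 19 ≤ exp 3 := by
      have := pow_le_pow_left₀ (by norm_num) exp_one_gt_d9.le 3
      rw [← exp_nat_mul] at this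
      norm_num at this ⊢
      linarith
    have k : kk (exp 3 : ℝ) = 6 := by
      rw [kk, Complex.norm_real, norm_of_nonneg (exp_pos _).le, psi_eq (by nlinarith), log_pow,
        log_exp]
      norm_num
    simp only [k, Complex.ofReal_re]
    linarith [(abs_le.1 (w0 (exp 3 : ℝ))).1, (abs_le.1 t0).1]
  · have a := (w2.fderiv_right (m := 1) le_rfl).differentiable one_ne_zero y
    have b := (kk_cd.fderiv_right (m := 1) le_rfl).differentiable one_ne_zero y
    have e : trL (fderiv ℝ (fderiv ℝ fun y : E => y.re - 9 + w y + t * kk y) y) =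
        trL (fderiv ℝ (fderiv ℝ w) y) + t * eta y := by
      rw [D, show fderiv ℝ (fun y => Complex.reCLM + fderiv ℝ w y + t • fderiv ℝ kk y) y = _ from
        ((a.hasFDerivAt.const_add _).fun_add (b.hasFDerivAt.fun_const_smul t)).fderiv]
      simp only [trL_apply, eta, ContinuousLinearMap.add_apply, ContinuousLinearMap.smul_apply,
        smul_eq_mul]
      ring
    rw [e, h]
    rcases le_total (‖y‖ ^ 2) 2 with c | c
    · have d := (abs_le.1 (s y c)).2
      have : y.re ≤ 2 := by nlinarith [Complex.re_le_norm y, norm_nonneg y]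
      rw [f5 _ (le_abs.2 (.inr (by linarith)))]
      simp
    · rw [gg_eq c, mul_comm, mul_assoc, one_div_mul_cancel (by linarith), mul_one]

lemma tr_rot (A : E →L[ℝ] E →L[ℝ] ℝ) (z : E) :
    A z z + A (z * Complex.I) (z * Complex.I) = ‖z‖ ^ 2 * trL A := by
  have a : z = z.re • (1 : ℂ) + z.im • Complex.I := by apply Complex.ext <;> simp
  have b : z * Complex.I = (-z.im) • (1 : ℂ) + z.re • Complex.I := by apply Complex.ext <;> simp
  rw [Complex.sq_norm, Complex.normSq_apply, trL_apply, b]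
  generalize z.re = p at *
  generalize z.im = q at *
  rw [a]
  simp only [map_add, map_smul, ContinuousLinearMap.add_apply, ContinuousLinearMap.smul_apply,
    smul_eq_mul]
  ring

noncomputable abbrev F := EuclideanSpace ℝ (Fin 3)

noncomputable def LL : F →L[ℝ] ℂ :=
  (EuclideanSpace.proj (𝕜 := ℝ) 0).smulRight 1 + (EuclideanSpace.proj (𝕜 := ℝ) 1).smulRight Complex.I

lemma LL_apply (x : F) : LL x = x 0 + x 1 * Complex.I := by simp [LL]

noncomputable def fi (x : F) : ℂ := Complex.exp (LL x)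

lemma fi_d (x : F) : HasFDerivAt fi (fi x • LL) x :=
  (Complex.hasDerivAt_exp _).comp_hasFDerivAt x LL.hasFDerivAt

lemma fi_cd : ContDiff ℝ 2 fi := Complex.contDiff_exp.comp LL.contDiff

lemma fi_norm (x : F) : ‖fi x‖ = exp (x 0) := by simp [fi, Complex.norm_exp, LL_apply]

lemma cmp_d {v : E → ℝ} (hv : ContDiff ℝ 2 v) :
    fderiv ℝ (fun x => v (fi x)) = fun x => fderiv ℝ v (fi x) ∘L (fi x • LL) :=
  funext fun x => ((hv.differentiable two_ne_zero _).hasFDerivAt.comp x (fi_d x)).fderiv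

lemma cmp_lap {v : E → ℝ} (hv : ContDiff ℝ 2 v) (x : F) :
    Laplacian.laplacian (fun x => v (fi x)) x =
      ‖fi x‖ ^ 2 * trL (fderiv ℝ (fderiv ℝ v) (fi x)) := by
  have a := ((hv.fderiv_right (m := 1) le_rfl).differentiable one_ne_zero (fi x)).hasFDerivAt.comp
    x (fi_d x)
  have b := (a.clm_comp ((fi_d x).smul_const LL)).fderiv
  rw [InnerProductSpace.laplacian_eq_iteratedFDeriv_orthonormalBasis _
    (EuclideanSpace.basisFun (Fin 3) ℝ), ← tr_rot]
  simp only [iteratedFDeriv_two_apply, cmp_d hv]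
  rw [show fderiv ℝ (fun x => fderiv ℝ v (fi x) ∘L (fi x • LL)) x = _ from b]
  simp [Fin.sum_univ_three, LL_apply, mul_assoc]
  ring

end Pool.Agent.H.MP_66e6f4_an
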